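import Pool.Agent.X17.SM.Upper
import Pool.Agent.X17.SM.LowAsy
import Pool.Agent.X17.SM.Tup

/-!
# The number of solutions of `σ₂ = σ_n` is not eventually increasing

For infinitely many `m` the equation has at least `m^0.99` solutions (products of many small primes have very many
factorizations, and many of them give a solution for the same `m`), but for every large `m` some `n` in `[m, 2m]` has
fewer than `m^0.99` solutions.
-/

set_option autoImplicit false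

open Filter

namespace Pool.Agent.Results.MP_754333_nt.NotEventuallyMonotone

/-- `S(n)`: the positive integer solutions `x₁ ≤ … ≤ x_n` of `σ₂ = σ_n`. -/
def S (n : ℕ) : Set (Fin n → ℕ) :=
  {x | (∀ i, 0 < x i) ∧ Monotone x ∧ ∑ i, ∑ j ∈ Finset.Ioi i, x i * x j = ∏ i, x i}

/-- **(1)** Every `S(n)` with `n ≥ 3` is finite. **(2)** `|S(n+1)| < |S(n)|` for infinitely many `n`; so
`n ↦ |S(n)|` is not eventually increasing. **(3)** `|S(m)| ≥ m^0.99` for infinitely many `m`. **(4)** For every large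
`m` there is an `n` with `m ≤ n ≤ 2m` and `|S(n)| < m^0.99`. -/
theorem result :
    (∀ n : ℕ, 3 ≤ n → (S n).Finite) ∧
    (∀ N : ℕ, ∃ n, N ≤ n ∧ (S (n + 1)).ncard < (S n).ncard) ∧
    (∀ N : ℕ, ∃ m, N ≤ m ∧ (m : ℝ) ^ (99 / 100 : ℝ) ≤ (S m).ncard) ∧
    (∃ m₀ : ℕ, ∀ m, m₀ ≤ m → ∃ n, m ≤ n ∧ n ≤ 2 * m ∧
      ((S n).ncard : ℝ) < (m : ℝ) ^ (99 / 100 : ℝ)) := by
  have hS : ∀ n, S n = Pool.Agent.X17.SM.S n := fun n => rfl
  have h3 : ∀ N : ℕ, ∃ m, N ≤ m ∧ (m : ℝ) ^ (99 / 100 : ℝ) ≤ (S m).ncard := by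
    intro N
    obtain ⟨m, hm, h⟩ := Pool.Agent.X17.SM.lower N
    refine ⟨m, hm, ?_⟩
    rw [hS, Pool.Agent.X17.SM.S_ncard]
    exact h
  have h4 : ∃ m₀ : ℕ, ∀ m, m₀ ≤ m → ∃ n, m ≤ n ∧ n ≤ 2 * m ∧
      ((S n).ncard : ℝ) < (m : ℝ) ^ (99 / 100 : ℝ) := by
    obtain ⟨m₀, hm₀⟩ := eventually_atTop.mp
      (Pool.Agent.X17.SM.upper.and (eventually_ge_atTop 3))
    refine ⟨m₀, fun m hm => ?_⟩
    obtain ⟨⟨n, hn, h⟩, hm3⟩ := hm₀ m hm
    rw [Finset.mem_Icc] at hn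
    refine ⟨n, hn.1, hn.2, lt_of_le_of_lt ?_ h⟩
    rw [hS, Pool.Agent.X17.SM.S_ncard]
    have hsub : Pool.Agent.X17.SM.SolC n ⊆ Pool.Agent.X17.SM.Sol n := fun Y hY => hY.1
    exact_mod_cast Set.ncard_le_ncard hsub (Pool.Agent.X17.SM.Sol_finite (by omega))
  refine ⟨fun n hn => by rw [hS]; exact Pool.Agent.X17.SM.S_finite hn, ?_, h3, h4⟩
  intro N
  by_contra hcon
  push Not at hcon
  obtain ⟨m₀, hm₀⟩ := h4
  obtain ⟨m, hm, hlow⟩ := h3 (max N m₀)
  obtain ⟨n, hn1, hn2, hup⟩ := hm₀ m ((le_max_right _ _).trans hm)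
  have hmono : ∀ k, m ≤ k → (S m).ncard ≤ (S k).ncard := by
    intro k hk
    induction k, hk using Nat.le_induction with
    | base => exact le_rfl
    | succ k hk ih =>
      exact ih.trans (hcon k (((le_max_left _ _).trans hm).trans hk))
  have h6 : ((S m).ncard : ℝ) ≤ ((S n).ncard : ℝ) := by exact_mod_cast hmono n hn1
  linarith

end Pool.Agent.Results.MP_754333_nt.NotEventuallyMonotone
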